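import Pool.Agent.Mimw.Longest

/-!
# Asteroidal sets, connected sets, components
-/

set_option autoImplicit false

namespace Pool.Agent.Atn

open SimpleGraph Pool.Mimw
open scoped Classical

variable {V : Type*}

/-- `x` and `y` are joined by a walk without vertices in the closed neighbourhood of `z` -/
def Join (G : SimpleGraph V) (z x y : V) : Prop :=
  ∃ w : G.Walk x y, ∀ v ∈ w.support, v ≠ z ∧ ¬ G.Adj z v

/-- `A` is asteroidal: for every `a` in `A` any two elements of `A` other than `a` are joined by a walk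
without vertices in the closed neighbourhood of `a` -/
def Asteroidal (G : SimpleGraph V) (A : Finset V) : Prop :=
  ∀ a ∈ A, ∀ x ∈ A, ∀ y ∈ A, x ≠ a → y ≠ a → Join G a x y

/-- `F` is a connected set of vertices -/
def Conn (G : SimpleGraph V) (F : Finset V) : Prop :=
  ∀ x ∈ F, ∀ y ∈ F, ∃ w : G.Walk x y, ∀ v ∈ w.support, v ∈ F

/-- every vertex is in `F` or has a neighbour in `F` -/
def Dominating (G : SimpleGraph V) (F : Finset V) : Prop :=
  ∀ v, ∃ x ∈ F, x = v ∨ G.Adj x v

/-- `S` meets every longest path of `G`. -/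
def IsTransversal (G : SimpleGraph V) (S : Finset V) : Prop :=
  ∀ (u v : V) (p : G.Walk u v), IsLongest G p → ∃ x ∈ S, x ∈ p.support

theorem Join.ne {G : SimpleGraph V} {z x y : V} (h : Join G z x y) : x ≠ z ∧ ¬ G.Adj z x := by
  obtain ⟨w, hw⟩ := h
  exact hw x w.start_mem_support

theorem Join.refl {G : SimpleGraph V} {z x : V} (h : x ≠ z) (h' : ¬ G.Adj z x) : Join G z x x := by
  refine ⟨Walk.nil, fun v hv => ?_⟩
  rw [Walk.support_nil, List.mem_singleton] at hv
  rw [hv]
  exact ⟨h, h'⟩

theorem Join.symm {G : SimpleGraph V} {z x y : V} (h : Join G z x y) : Join G z y x := by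
  obtain ⟨w, hw⟩ := h
  refine ⟨w.reverse, fun v hv => hw v ?_⟩
  rwa [Walk.support_reverse, List.mem_reverse] at hv

theorem Join.trans {G : SimpleGraph V} {z x y t : V} (h : Join G z x y) (h' : Join G z y t) :
    Join G z x t := by
  obtain ⟨w, hw⟩ := h
  obtain ⟨w', hw'⟩ := h'
  refine ⟨w.append w', fun v hv => ?_⟩
  rw [Walk.mem_support_append_iff] at hv
  rcases hv with hv | hv
  · exact hw v hv
  · exact hw' v hv

theorem Join.step {G : SimpleGraph V} {z x y t : V} (h : Join G z x y) (h' : G.Adj y t) (ht : t ≠ z)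
    (ht' : ¬ G.Adj z t) : Join G z x t := by
  refine h.trans ⟨Walk.cons h' Walk.nil, fun v hv => ?_⟩
  rw [Walk.support_cons, Walk.support_nil, List.mem_cons, List.mem_singleton] at hv
  rcases hv with rfl | rfl
  · exact h.symm.ne
  · exact ⟨ht, ht'⟩

theorem conn_of_root {G : SimpleGraph V} {F : Finset V} (r : V)
    (h : ∀ x ∈ F, ∃ w : G.Walk r x, ∀ v ∈ w.support, v ∈ F) : Conn G F := by
  intro x hx y hy
  obtain ⟨w, hw⟩ := h x hx
  obtain ⟨w', hw'⟩ := h y hy
  refine ⟨w.reverse.append w', fun v hv => ?_⟩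
  rw [Walk.mem_support_append_iff, Walk.support_reverse, List.mem_reverse] at hv
  rcases hv with hv | hv
  · exact hw v hv
  · exact hw' v hv

/-- vertices joined to an element of `D` other than `d` by a walk without vertices in `N[d]` -/
noncomputable def comp [Fintype V] (G : SimpleGraph V) (D : Finset V) (d : V) : Finset V :=
  Finset.univ.filter fun x => ∃ y ∈ D, y ≠ d ∧ Join G d y x

/-- vertices joined to `x` by a walk without vertices in `N[z]` -/
noncomputable def reach [Fintype V] (G : SimpleGraph V) (z x : V) : Finset V :=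
  Finset.univ.filter fun y => Join G z x y

/-- the potential -/
noncomputable def Phi [Fintype V] (G : SimpleGraph V) (k : ℕ) (D : Finset V) : ℕ :=
  ∑ d ∈ D, (k + 1) ^ (comp G D d).card

theorem mem_comp [Fintype V] {G : SimpleGraph V} {D : Finset V} {d x : V} :
    x ∈ comp G D d ↔ ∃ y ∈ D, y ≠ d ∧ Join G d y x := by
  simp [comp]

theorem mem_reach [Fintype V] {G : SimpleGraph V} {z x y : V} : y ∈ reach G z x ↔ Join G z x y := by
  simp [reach]

end Pool.Agent.Atn
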