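import Pool.Agent.Atn.Tgt
import Pool.Agent.Mimw.Layers

/-!
# Asteroidal number and longest path transversals
-/

set_option autoImplicit false

namespace Pool.Agent.Atn

open SimpleGraph Pool.Mimw
open scoped Classical

variable {V : Type*}

theorem transversal_of_asteroidal [Fintype V] {G : SimpleGraph V} (hG : G.Connected) {k : ℕ}
    (hk2 : 2 ≤ k) (hk : ∀ A : Finset V, Asteroidal G A → A.card ≤ k) :
    ∃ S : Finset V, S.card ≤ 7 * k - 9 ∧ IsTransversal G S := by
  obtain ⟨v0⟩ := hG.nonempty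
  have hne : Nonempty V := ⟨v0⟩
  obtain ⟨D, ⟨r, hr⟩, hDk, hz⟩ := exists_target G k hk
  have hcard := Finset.card_erase_of_mem hr
  have key : ∀ (m : ℕ), 1 ≤ m → m ≤ k - 1 → ∀ (t : Fin m → V), (∀ d ∈ D, d = r ∨ ∃ j, t j = d) →
      ∃ S : Finset V, S.card ≤ 7 * k - 9 ∧ IsTransversal G S := by
    intro m hm hmk t ht
    have hP : ∀ j, ∃ p : G.Walk r (t j), p.length = G.dist r (t j) := fun j =>
      hG.exists_walk_length_eq_dist r (t j)
    choose P hP using hP
    have hdom : Dominating G (Finset.univ.filter fun x => ∃ j, x ∈ (P j).support) := by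
      refine dominating_of_target hz ?_ ?_
      · intro d hd
        refine Finset.mem_filter.2 ⟨Finset.mem_univ _, ?_⟩
        rcases ht d hd with rfl | ⟨j, rfl⟩
        · exact ⟨⟨0, hm⟩, (P ⟨0, hm⟩).start_mem_support⟩
        · exact ⟨j, (P j).end_mem_support⟩
      · refine conn_of_root r fun x hx => ?_
        obtain ⟨-, j, hj⟩ := Finset.mem_filter.1 hx
        exact ⟨(P j).takeUntil x hj, fun v hv => Finset.mem_filter.2 ⟨Finset.mem_univ _, j,
          (P j).support_takeUntil_subset_support hj hv⟩⟩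
    obtain ⟨S, hS, hS'⟩ := transversal_of_geodesics hG r m hm t P hP (by
      intro v
      obtain ⟨x, hx, hxv⟩ := hdom v
      obtain ⟨-, j, hj⟩ := Finset.mem_filter.1 hx
      refine ⟨j, x, hj, ?_⟩
      rcases hxv with h | h
      · exact Or.inl h.symm
      · exact Or.inr h.symm)
    exact ⟨S, by omega, hS'⟩
  rcases (D.erase r).eq_empty_or_nonempty with h0 | h0
  · refine key 1 le_rfl (by omega) (fun _ => r) fun d hd => Or.inl ?_
    by_contra hdr
    have h1 : d ∈ D.erase r := Finset.mem_erase.2 ⟨hdr, hd⟩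
    rw [h0] at h1
    exact Finset.notMem_empty _ h1
  · have h1 : 0 < (D.erase r).card := Finset.card_pos.2 h0
    refine key (D.erase r).card h1 (by omega) (fun j => ((D.erase r).equivFin.symm j : V)) ?_
    intro d hd
    by_cases hdr : d = r
    · exact Or.inl hdr
    · exact Or.inr ⟨(D.erase r).equivFin ⟨d, Finset.mem_erase.2 ⟨hdr, hd⟩⟩, by simp⟩

theorem transversal_of_window [Fintype V] {G : SimpleGraph V} (hG : G.Connected) (lev : V → ℕ)
    (hlev : ∀ a b, G.Adj a b → lev b ≤ lev a + 1) (k c : ℕ) (hk : 1 ≤ k) (hc : 1 ≤ c)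
    (h : ∀ i, ∃ F : Finset (Finset V), F.card ≤ c ∧ (∑ A ∈ F, A.card) ≤ k ∧
      (∀ A ∈ F, Conn G A) ∧ ∀ v, i ≤ lev v + 1 → lev v ≤ i + 1 → ∃ A ∈ F, v ∈ A ∨ ∃ x ∈ A, G.Adj v x) :
    ∃ S : Finset V, S.card ≤ k + 2 * (c - 1) ∧ IsTransversal G S := by
  obtain ⟨S, hS, hS'⟩ := transversal_of_layers hG lev hlev k c (by omega) (by
    intro i
    obtain ⟨F, h1, h2, h3, h4⟩ := h i
    rcases F.eq_empty_or_nonempty with rfl | hF
    · refine ⟨{∅}, Finset.singleton_nonempty _, by rw [Finset.card_singleton]; exact hc, by simp, ?_, ?_⟩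
      · intro A hA
        rw [Finset.mem_singleton] at hA
        rw [hA]
        intro x hx
        exact absurd hx (Finset.notMem_empty _)
      · intro v h5 h6
        obtain ⟨A, hA, -⟩ := h4 v h5 h6
        exact absurd hA (Finset.notMem_empty _)
    · exact ⟨F, hF, h1, h2, h3, h4⟩)
  exact ⟨S, by omega, hS'⟩

end Pool.Agent.Atn
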