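import Pool.Agent.Atn.Defs

/-!
# Dominating targets
-/

set_option autoImplicit false

namespace Pool.Agent.Atn

open SimpleGraph Pool.Mimw
open scoped Classical

variable {V : Type*}

-- BEGIN cmp
/-- PROOF. Let `x` be in `comp G D i`, `y` in `D`, `y ≠ i`, `w` a walk from `y` to `x` without vertices in `N[i]`. No vertex `v` of `w` is in `N[z]`:
otherwise `z` is in `comp G D i` (`v = z`, or the walk up to `v` and the edge `v z`; `z ≠ i` and `¬ G.Adj i z` by `(hz i hi i hi).ne`). So `w` shows `Join G z y x`, and `Join G z d0 x`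
by `hz`. Also `i` is in `reach G z d0` and not in `comp G D i` (`Join.ne` of the symmetric). So `comp` is a proper subset of `reach` (`Finset.card_lt_card`). -/
theorem comp_lt [Fintype V] {G : SimpleGraph V} {D : Finset V} {z d0 i : V}
    (hz : ∀ x ∈ D, ∀ y ∈ D, Join G z x y) (h0 : d0 ∈ D) (hi : i ∈ D) (hzi : z ∉ comp G D i) :
    (comp G D i).card < (reach G z d0).card := by
  have hne := (hz i hi i hi).ne
  apply Finset.card_lt_card
  rw [Finset.ssubset_iff_of_subset]
  · refine ⟨i, mem_reach.2 (hz d0 h0 i hi), fun h => ?_⟩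
    obtain ⟨y, _, _, h1⟩ := mem_comp.1 h
    exact h1.symm.ne.1 rfl
  · intro x hx
    obtain ⟨y, hy, hyi, w, hw⟩ := mem_comp.1 hx
    rw [mem_reach]
    refine (hz d0 h0 y hy).trans ⟨w, fun v hv => ?_⟩
    have hj : Join G i y v := ⟨w.takeUntil v hv, fun t ht => hw t (w.support_takeUntil_subset_support hv ht)⟩
    constructor
    · rintro rfl
      exact hzi (mem_comp.2 ⟨y, hy, hyi, hj⟩)
    · intro ha
      refine hzi (mem_comp.2 ⟨y, hy, hyi, hj.step ha.symm hne.1.symm ?_⟩)
      exact fun h => hne.2 h.symm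
-- END cmp

-- BEGIN ast
/-- PROOF. `a = z`: all elements other than `z` are in `D`, use `hz`. `a` in the filter: there is `y0` in `D`, `y0 ≠ a`, `Join G a y0 z`; every other element of the set
is `z` or an element of `D` other than `a`, so joined to `y0` (`hD a _ y0 _ x _`); `Join.symm`, `Join.trans`. -/
theorem ast_insert [Fintype V] {G : SimpleGraph V} {D : Finset V} {z : V} (hD : Asteroidal G D)
    (hz : ∀ x ∈ D, ∀ y ∈ D, Join G z x y) :
    Asteroidal G (insert z (D.filter fun d => z ∈ comp G D d)) := by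
  intro a ha x hx y hy hxa hya
  rcases Finset.mem_insert.1 ha with rfl | ha
  · rcases Finset.mem_insert.1 hx with rfl | hx
    · exact absurd rfl hxa
    · rcases Finset.mem_insert.1 hy with rfl | hy
      · exact absurd rfl hya
      · exact hz x (Finset.mem_filter.1 hx).1 y (Finset.mem_filter.1 hy).1
  · obtain ⟨haD, haz⟩ := Finset.mem_filter.1 ha
    obtain ⟨y0, hy0, hy0a, hj⟩ := mem_comp.1 haz
    have key : ∀ x ∈ insert z (D.filter fun d => z ∈ comp G D d), x ≠ a → Join G a y0 x := by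
      intro x hx hxa
      rcases Finset.mem_insert.1 hx with rfl | hx
      · exact hj
      · exact hD a haD y0 hy0 x (Finset.mem_filter.1 hx).1 hy0a hxa
    exact (key x hx hxa).symm.trans (key y hy hya)

/-- PROOF. `a = z`: the other elements are `d0`: `hz`. `a = d0`: the other elements are `z`: `Join.refl`, `(hz d0 h0 d0 h0).ne`, `G.adj_comm`. -/
theorem ast_pair {G : SimpleGraph V} {D : Finset V} {z d0 : V}
    (hz : ∀ x ∈ D, ∀ y ∈ D, Join G z x y) (h0 : d0 ∈ D) : Asteroidal G {z, d0} := by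
  intro a ha x hx y hy hxa hya
  rw [Finset.mem_insert, Finset.mem_singleton] at ha hx hy
  have h1 := (hz d0 h0 d0 h0).ne
  rcases ha with rfl | rfl
  · have hx' : x = d0 := hx.resolve_left hxa
    have hy' : y = d0 := hy.resolve_left hya
    rw [hx', hy']
    exact hz d0 h0 d0 h0
  · have hx' : x = z := hx.resolve_right hxa
    have hy' : y = z := hy.resolve_right hya
    rw [hx', hy']
    exact Join.refl h1.1.symm fun h => h1.2 h.symm
-- END ast

-- BEGIN phi
private theorem phi_sub [Fintype V] {G : SimpleGraph V} {D : Finset V} {z : V} (hD : Asteroidal G D)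
    (hz : ∀ x ∈ D, ∀ y ∈ D, Join G z x y) {d : V} (hd : d ∈ D.filter fun d => z ∈ comp G D d) :
    comp G D d ⊆ comp G (insert z (D.filter fun d => z ∈ comp G D d)) d := by
  intro x hx
  obtain ⟨hdD, hzd⟩ := Finset.mem_filter.1 hd
  obtain ⟨y, hy, hyd, hj⟩ := mem_comp.1 hx
  obtain ⟨y0, hy0, hy0d, hj0⟩ := mem_comp.1 hzd
  exact mem_comp.2 ⟨z, Finset.mem_insert_self _ _, (hz d hdD d hdD).ne.1.symm,
    (hj0.symm.trans (hD d hdD y0 hy0 y hy hy0d hyd)).trans hj⟩

private theorem phi_reach [Fintype V] {G : SimpleGraph V} {D S : Finset V} {z d0 : V}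
    (hz : ∀ x ∈ D, ∀ y ∈ D, Join G z x y) (h0 : d0 ∈ D) (hS : d0 ∈ S) :
    reach G z d0 ⊆ comp G S z := fun _ hx =>
  mem_comp.2 ⟨d0, hS, (hz d0 h0 d0 h0).ne.1, mem_reach.1 hx⟩

private theorem phi_rest [Fintype V] {G : SimpleGraph V} {D I : Finset V} {z d0 : V} {k : ℕ}
    (hk : D.card ≤ k) (hz : ∀ x ∈ D, ∀ y ∈ D, Join G z x y) (h0 : d0 ∈ D) (hID : I ⊆ D)
    (hI : ∀ d ∈ I, z ∉ comp G D d) :
    ∑ d ∈ I, (k + 1) ^ (comp G D d).card < (k + 1) ^ (reach G z d0).card := by
  have hc : 0 < (reach G z d0).card :=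
    Finset.card_pos.2 ⟨d0, mem_reach.2 (hz d0 h0 d0 h0)⟩
  obtain ⟨c, hc'⟩ : ∃ c, (reach G z d0).card = c + 1 := ⟨_, (Nat.sub_add_cancel hc).symm⟩
  have h1 : ∀ d ∈ I, (k + 1) ^ (comp G D d).card ≤ (k + 1) ^ c := fun d hd =>
    Nat.pow_le_pow_right (Nat.succ_pos k)
      (by have := comp_lt hz h0 (hID hd) (hI d hd); omega)
  have h2 := Finset.sum_le_card_nsmul I _ _ h1
  have h3 : I.card ≤ k := (Finset.card_le_card hID).trans hk
  rw [hc', pow_succ]
  have h4 : 0 < (k + 1) ^ c := Nat.pow_pos (Nat.succ_pos k)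
  rw [smul_eq_mul] at h2
  nlinarith

/-- PROOF. Write `J` for the filter, `I = D \ J`. `z ∉ J` by `(hz x _ x _).ne`. Sum over `insert z J` is the term of `z` plus the sum over `J`.
Term of `z`: `reach G z d0 ⊆ comp G (insert z J) z` for `d0` in `J` (witness `y = d0`). Term of `d` in `J`: `comp G D d ⊆ comp G (insert z J) d` (witness `z`: `Join G d y0 z`, `Join G d y0 y` by `hD`, `Join G d y x`).
Sum over `I` of the terms in `Phi G k D`: `comp_lt` gives `(comp G D i).card + 1 ≤ c = (reach G z d0).card`, so every term is at most `(k + 1) ^ (c - 1)`, there are at most `k` of them and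
`k * (k + 1) ^ (c - 1) < (k + 1) ^ c`. -/
theorem phi_insert [Fintype V] {G : SimpleGraph V} {D : Finset V} {z : V} {k : ℕ}
    (hD : Asteroidal G D) (hk : D.card ≤ k) (hz : ∀ x ∈ D, ∀ y ∈ D, Join G z x y)
    (hJ : (D.filter fun d => z ∈ comp G D d).Nonempty) :
    Phi G k D < Phi G k (insert z (D.filter fun d => z ∈ comp G D d)) := by
  obtain ⟨d0, hd0⟩ := hJ
  have h0 : d0 ∈ D := (Finset.mem_filter.1 hd0).1
  have hzJ : z ∉ D.filter fun d => z ∈ comp G D d := by
    intro h
    have hzD := (Finset.mem_filter.1 h).1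
    exact (hz z hzD z hzD).ne.1 rfl
  unfold Phi
  rw [Finset.sum_insert hzJ,
    ← Finset.sum_filter_add_sum_filter_not D (fun d => z ∈ comp G D d)
      (fun d => (k + 1) ^ (comp G D d).card), add_comm]
  refine add_lt_add_of_lt_of_le ?_ ?_
  · refine lt_of_lt_of_le (phi_rest hk hz h0 (Finset.filter_subset _ _)
      (fun d hd => (Finset.mem_filter.1 hd).2)) ?_
    exact Nat.pow_le_pow_right (Nat.succ_pos k) (Finset.card_le_card
      (phi_reach hz h0 (Finset.mem_insert_of_mem hd0)))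
  · exact Finset.sum_le_sum fun d hd => Nat.pow_le_pow_right (Nat.succ_pos k)
      (Finset.card_le_card (phi_sub hD hz hd))

/-- PROOF. `reach G z d0 ⊆ comp G {z, d0} z` (witness `d0`, `d0 ≠ z`), so `(k + 1) ^ c ≤ Phi G k {z, d0}` (single term of the sum), `c = (reach G z d0).card`.
By `comp_lt` every term of `Phi G k D` is at most `(k + 1) ^ (c - 1)`; at most `k` terms. -/
theorem phi_pair [Fintype V] {G : SimpleGraph V} {D : Finset V} {z d0 : V} {k : ℕ}
    (hk : D.card ≤ k) (hz : ∀ x ∈ D, ∀ y ∈ D, Join G z x y) (h0 : d0 ∈ D)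
    (hJ : ∀ d ∈ D, z ∉ comp G D d) : Phi G k D < Phi G k {z, d0} := by
  refine lt_of_lt_of_le (phi_rest hk hz h0 (Finset.Subset.refl D) hJ) ?_
  refine (Nat.pow_le_pow_right (Nat.succ_pos k) (Finset.card_le_card
    (phi_reach hz h0 (S := {z, d0}) (by simp)))).trans ?_
  unfold Phi
  exact Finset.single_le_sum (f := fun d => (k + 1) ^ (comp G {z, d0} d).card)
    (fun d _ => Nat.zero_le _) (Finset.mem_insert_self z {d0})
-- END phi

-- BEGIN tgt
/-- PROOF. Among the nonempty asteroidal sets (finitely many; `{v}` is one: no `x` in `{v}` is `≠ v`) take `D` with `Phi G k D` maximal (`Finset.exists_max_image` over `Finset.univ.filter`).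
`D.card ≤ k`. If some `z` has `Join G z x y` for all `x`, `y` in `D`: if the filter of `ast_insert` is nonempty use `ast_insert`, `phi_insert`, otherwise `ast_pair`, `phi_pair` with any `d0` in `D`: contradiction to the maximality. -/
theorem exists_target [Fintype V] [Nonempty V] (G : SimpleGraph V) (k : ℕ)
    (hk : ∀ A : Finset V, Asteroidal G A → A.card ≤ k) :
    ∃ D : Finset V, D.Nonempty ∧ D.card ≤ k ∧ ∀ z, ∃ x ∈ D, ∃ y ∈ D, ¬ Join G z x y := by
  obtain ⟨v⟩ := ‹Nonempty V›
  have hne : (Finset.univ.filter fun D : Finset V => D.Nonempty ∧ Asteroidal G D).Nonempty := by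
    refine ⟨{v}, Finset.mem_filter.2 ⟨Finset.mem_univ _, Finset.singleton_nonempty v, ?_⟩⟩
    intro a ha x hx y _ hxa _
    rw [Finset.mem_singleton] at ha hx
    exact absurd (hx.trans ha.symm) hxa
  obtain ⟨D, hD, hmax⟩ := Finset.exists_max_image _ (Phi G k) hne
  obtain ⟨_, hDn, hDa⟩ := Finset.mem_filter.1 hD
  have hDk := hk D hDa
  refine ⟨D, hDn, hDk, ?_⟩
  by_contra hcon
  push Not at hcon
  obtain ⟨z, hz⟩ := hcon
  by_cases hJ : (D.filter fun d => z ∈ comp G D d).Nonempty
  · have h1 := hmax _ (Finset.mem_filter.2 ⟨Finset.mem_univ _, Finset.insert_nonempty z _,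
      ast_insert hDa hz⟩)
    exact absurd (phi_insert hDa hDk hz hJ) (not_lt.2 h1)
  · obtain ⟨d0, h0⟩ := hDn
    have h1 := hmax _ (Finset.mem_filter.2 ⟨Finset.mem_univ _, Finset.insert_nonempty z _,
      ast_pair hz h0⟩)
    refine absurd (phi_pair hDk hz h0 fun d hd hzd => hJ ⟨d, Finset.mem_filter.2 ⟨hd, hzd⟩⟩)
      (not_lt.2 h1)
-- END tgt

-- BEGIN dom
/-- PROOF. If no `x` in `F` is `v` or adjacent to `v`, then `hF` gives for all `x`, `y` in `D` a walk in `F`, so `Join G v x y`, against `hD v`. -/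
theorem dominating_of_target {G : SimpleGraph V} {D F : Finset V}
    (hD : ∀ z, ∃ x ∈ D, ∃ y ∈ D, ¬ Join G z x y) (hDF : D ⊆ F) (hF : Conn G F) : Dominating G F := by
  intro v
  by_contra hcon
  obtain ⟨x, hx, y, hy, hj⟩ := hD v
  apply hj
  obtain ⟨w, hw⟩ := hF x (hDF hx) y (hDF hy)
  refine ⟨w, fun u hu => ⟨?_, ?_⟩⟩
  · intro huv
    exact hcon ⟨u, hw u hu, Or.inl huv⟩
  · intro hadj
    exact hcon ⟨u, hw u hu, Or.inr hadj.symm⟩
-- END dom

end Pool.Agent.Atn
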